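import Pool.Agent.H76.TC.Fin2

/-!
# MP_a05331_al: covers of the character-degree primes lift through abelian layers

`Irr G`: irreducible finite-dimensional complex representations of `G`; `Irr.degree`: the degree.
`InRho G p`: `p` is a prime in `ρ(G)`. `NormalAbelianSylow G p`: `G` has a normal abelian Sylow
`p`-subgroup. `Covered G S m`: there are `m` irreducible characters of `G` such that every prime
of `S` divides one of their degrees. `ThreeChar G`: Q1 holds for `G`.
-/

set_option autoImplicit false

namespace Pool.Agent.Results.MP_a05331_al.AbelianLayers

open Pool.Agent.H76.TC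

/-- Let `N` be a normal subgroup of derived length at most `k` of a finite group `G`. If `m`
irreducible characters of `G ⧸ N` cover all primes `p` for which `G ⧸ N` has no normal abelian
Sylow `p`-subgroup, then `m + k` irreducible characters of `G` cover all primes `p` for which `G`
has no normal abelian Sylow `p`-subgroup; these include all primes of `ρ(G)`. Hence solvable groups
of derived length at most `4` have three irreducible characters as in Q1. -/
theorem result :
    (∀ (G : Type) [Group G] [Finite G] (N : Subgroup G) [N.Normal] (k m : ℕ),
      derivedSeries N k = ⊥ →
      Covered (G ⧸ N) (fun p => ¬ NormalAbelianSylow (G ⧸ N) p) m →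
      Covered G (fun p => InRho G p ∨ ¬ NormalAbelianSylow G p) (m + k)) ∧
    (∀ (G : Type) [Group G] [Finite G], derivedSeries G 4 = ⊥ → ThreeChar G) := by
  refine ⟨?_, ?_⟩
  · intro G _ _ N _ k m hk h
    refine cov_mono_set (abelian_layers N k m hk h) (fun p _ h1 => ?_)
    rcases h1 with h1 | h1
    · exact inRho_not_nas h1
    · exact h1
  · intro G _ _ h
    exact threeChar_of_cov (cov_inRho (solvable_derived 3 h))

end Pool.Agent.Results.MP_a05331_al.AbelianLayers
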