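import Pool.Agent.H76.TC.Fin2

/-!
# MP_a05331_al: covers of the character-degree primes lift through nilpotent layers

`Irr G`: irreducible finite-dimensional complex representations of `G`; `Irr.degree`: the degree.
`InRho G p`: `p` is a prime in `ρ(G)`. `NormalSylow G p`: `G` has a normal Sylow `p`-subgroup.
`Covered G S m`: there are `m` irreducible characters of `G` such that every prime of `S` divides
one of their degrees. `NilSeries G k M`: normal subgroups `1 = N 0 ≤ ... ≤ N k = M` of `G` with
nilpotent factors. `ThreeChar G`: Q1 holds for `G`.
-/

set_option autoImplicit false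

namespace Pool.Agent.Results.MP_a05331_al.NilpotentLayers

open Pool.Agent.H76.TC

/-- Let `M` be a normal subgroup of a finite group `G` with a series of length `k` of normal
subgroups of `G` and nilpotent factors. If `m` irreducible characters of `G ⧸ M` cover all primes
`p` for which `G ⧸ M` has no normal Sylow `p`-subgroup, then `m + k` irreducible characters of `G`
cover all primes `p` for which `G` has no normal Sylow `p`-subgroup, and `m + k + 1` cover `ρ(G)`.
Hence solvable groups of Fitting height at most `3`, and those of Fitting height `4` whose normal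
Sylow subgroups are abelian, have three irreducible characters as in Q1. -/
theorem result :
    (∀ (G : Type) [Group G] [Finite G] (M : Subgroup G) [M.Normal] (k m : ℕ),
      NilSeries G k M →
      Covered (G ⧸ M) (fun p => ¬ NormalSylow (G ⧸ M) p) m →
      Covered G (fun p => ¬ NormalSylow G p) (m + k) ∧ Covered G (InRho G) (m + k + 1)) ∧
    (∀ (G : Type) [Group G] [Finite G], NilSeries G 3 ⊤ → ThreeChar G) ∧
    (∀ (G : Type) [Group G] [Finite G], NilSeries G 4 ⊤ → AbelianNormalSylows G →
      ThreeChar G) := by
  refine ⟨?_, ?_, ?_⟩
  · intro G _ _ M _ k m hk h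
    have h1 := nilpotent_layers M k m hk h
    exact ⟨h1, cov_inRho (cov_last h1)⟩
  · intro G _ _ h
    exact threeChar_of_cov (cov_inRho (cov_last (solvable_nilpotent 2 h)))
  · intro G _ _ h hab
    apply threeChar_of_cov
    apply cov_inRho
    refine cov_mono_set (solvable_nilpotent 3 h) (fun p hp h1 h2 => h1 ?_)
    obtain ⟨P, hP⟩ := h2
    exact ⟨P, hP, hab p hp P hP⟩

end Pool.Agent.Results.MP_a05331_al.NilpotentLayers
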